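import Pool.Agent.Q82.OC7

/-!
# Outer functions are cyclic in the spaces `D^p_{p-1}`, `p > 2`

The affirmative answer to Q1 of MP_57350d_an.  Idea of the proof: for `a ∈ H^∞` and
`f ∈ D^p_{p-1}` with `a f ∈ D^p_{p-1}` the functions `a(ρ z) f(z) - a(ρ z) f(ρ z)` tend to zero in
norm as `ρ → 1`, because of the Hardy type inequality
`∫ |f(z) - f(ρ z)|^p (1 - ρ |z|)^{-p} (1 - |z|)^{p-1} dA ≤ 4 ∫ |f'|^p (1 - |z|)^{p-1} dA`.
Hence `a f` lies in the closed span of the polynomial multiples of `f`.  For outer `f` one finds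
such `a_n` with `|a_n f| ≤ 1` and `a_n f → 1`, and for bounded functions this convergence is a
convergence in norm.
-/

set_option autoImplicit false

namespace Pool.Agent.Results.MP_57350d_an.OuterCyclic

open MeasureTheory Metric Set Filter Topology
open scoped ENNReal Real

/-- The norm `|f(0)| + (∫_𝔻 (1 - |z|)^{p-1} |f'(z)|^p dA(z))^{1/p}`, with values in `[0, ∞]`. -/
noncomputable def dnorm (p : ℝ) (f : ℂ → ℂ) : ℝ≥0∞ :=
  ‖f 0‖ₑ + (∫⁻ z in ball (0 : ℂ) 1, ENNReal.ofReal ((1 - ‖z‖) ^ (p - 1)) * ‖deriv f z‖ₑ ^ p) ^ (1 / p)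

/-- Membership in `D^p_{p-1}`: `f` is holomorphic on the open unit disc and its norm is finite. -/
def MemD (p : ℝ) (f : ℂ → ℂ) : Prop :=
  DifferentiableOn ℂ f (ball (0 : ℂ) 1) ∧ dnorm p f < ⊤

/-- `f` is cyclic: there are polynomials `q_n` with `‖q_n f - 1‖ → 0`. -/
def Cyclic (p : ℝ) (f : ℂ → ℂ) : Prop :=
  ∃ q : ℕ → Polynomial ℂ, Tendsto (fun n => dnorm p (fun z => (q n).eval z * f z - 1)) atTop (𝓝 0)

/-- `f` is outer on the unit disc: `f(z) = c exp ((1/2π) ∫ (e^{iθ}+z)/(e^{iθ}-z) log k(e^{iθ}) dθ)`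
with `|c| = 1`, `k` positive and measurable on the circle, `log k` integrable. -/
def Outer (f : ℂ → ℂ) : Prop :=
  ∃ c : ℂ, ‖c‖ = 1 ∧ ∃ k : ℂ → ℝ, Measurable k ∧ (∀ ζ, 0 < k ζ) ∧
    IntervalIntegrable (fun θ : ℝ => Real.log (k (Complex.exp (θ * Complex.I)))) volume 0 (2 * π) ∧
    ∀ z ∈ ball (0 : ℂ) 1, f z = c * Complex.exp ((2 * π : ℝ)⁻¹ * ∫ θ in (0 : ℝ)..(2 * π),
      (Complex.exp (θ * Complex.I) + z) / (Complex.exp (θ * Complex.I) - z) *
        (Real.log (k (Complex.exp (θ * Complex.I))) : ℂ))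

/-- **Q1 of MP_57350d_an.**  For every `p > 2`, every outer function in `D^p_{p-1}` is cyclic. -/
theorem result (p : ℝ) (hp : 2 < p) (f : ℂ → ℂ) (hf : MemD p f) (ho : Outer f) : Cyclic p f := by
  obtain ⟨hfd, hfn⟩ := hf
  obtain ⟨c, hc, k, -, -, hk, hfo⟩ := ho
  have hp0 : 0 < p := by linarith
  have hcm : ∀ θ : ℝ, circleMap 0 1 θ = Complex.exp (θ * Complex.I) := fun θ => by
    simp [circleMap]
  have hκ : CircleIntegrable (fun ζ => Real.log (k ζ)) 0 1 := by
    unfold CircleIntegrable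
    simp only [hcm]
    exact hk
  have hE : Q82.OC.En p (deriv f) ≠ ⊤ := by
    intro h
    have : dnorm p f = ⊤ := by
      unfold dnorm
      change ‖f 0‖ₑ + (Q82.OC.En p (deriv f)) ^ (1 / p) = ⊤
      rw [h, ENNReal.top_rpow_of_pos (by positivity), add_top]
    exact absurd hfn (by simp [this])
  have hfo' : ∀ z ∈ ball (0 : ℂ) 1, f z = c * Complex.exp
      (Q82.OC.Hz (fun ζ => Real.log (k ζ)) z) := by
    intro z hz
    rw [hfo z hz]
    congr 2
    unfold Q82.OC.Hz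
    rw [Real.circleAverage_def, Complex.real_smul]
    congr 1
    refine intervalIntegral.integral_congr fun θ _ => ?_
    simp only [hcm, smul_eq_mul, herglotzRieszKernel_def, sub_zero]
  have hpos : ∀ n : ℕ, (0 : ℝ≥0∞) < ((n : ℝ≥0∞) + 1)⁻¹ := fun n =>
    ENNReal.inv_pos.2 (by finiteness)
  choose q hq1 hq2 using fun n : ℕ => Q82.OC.cyclic_outer hp.le hfd hE hc hκ hfo' (hpos n)
  refine ⟨q, ?_⟩
  have hδ : Tendsto (fun n : ℕ => ((n : ℝ≥0∞) + 1)⁻¹) atTop (𝓝 0) := by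
    have := (ENNReal.tendsto_inv_nat_nhds_zero).comp (tendsto_add_atTop_nat 1)
    refine this.congr fun n => ?_
    simp
  have hlim : Tendsto (fun n : ℕ => ((n : ℝ≥0∞) + 1)⁻¹ + (((n : ℝ≥0∞) + 1)⁻¹) ^ (1 / p)) atTop
      (𝓝 0) := by
    have h1 := (ENNReal.continuous_rpow_const (y := 1 / p)).tendsto 0
    rw [ENNReal.zero_rpow_of_pos (by positivity)] at h1
    have h2 := hδ.add (h1.comp hδ)
    simpa using h2
  refine tendsto_of_tendsto_of_tendsto_of_le_of_le tendsto_const_nhds hlim (fun _ => by simp)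
    fun n => ?_
  unfold dnorm
  refine add_le_add (hq1 n) (ENNReal.rpow_le_rpow ?_ (by positivity))
  have h3 : deriv (fun z => (q n).eval z * f z - 1) = deriv fun z => (q n).eval z * f z := by
    funext z
    exact deriv_sub_const _
  rw [h3]
  exact hq2 n

end Pool.Agent.Results.MP_57350d_an.OuterCyclic
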